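import Mathlib
import Pool.Agent.Lib.helper7.SubLat

set_option autoImplicit false

namespace Pool.Agent.Results.MP_622f37_al.NoneHold

open FirstOrder Pool.Agent.Lib.helper7.SubLat

/-- `L` satisfies the identity `s = t`. -/
def SatId (L : Type) [Lattice L] (p : latL.Term ℕ × latL.Term ℕ) : Prop :=
  ∀ v : ℕ → L, p.1.realize v = p.2.realize v

theorem no_id : ¬ ∃ E : Set (latL.Term ℕ × latL.Term ℕ),
    ∀ (L : Type) [Lattice L], InFld L ↔ ∀ p ∈ E, SatId L p := by
  rintro ⟨E, h⟩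
  haveI : Fact (Nat.Prime 3) := ⟨Nat.prime_three⟩
  have h2 := (h (Submodule (ZMod 2) (Fin 3 → ZMod 2))).1
    ⟨ZMod 2, inferInstance, _, inferInstance, inferInstance, LatticeHom.id _, fun _ _ e => e⟩
  have h3 := (h (Submodule (ZMod 3) (Fin 3 → ZMod 3))).1
    ⟨ZMod 3, inferInstance, _, inferInstance, inferInstance, LatticeHom.id _, fun _ _ e => e⟩
  refine prod_not ((h _).2 fun p hp v => ?_).inDiv
  rw [realize_prod, realize_prod, h2 p hp, h3 p hp]

/-- None of (i), (ii), (iii) holds for the class of lattices embeddable in subspace lattices of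
vector spaces over fields. -/
theorem result :
    (¬ ∃ E : Set (latL.Term ℕ × latL.Term ℕ),
      ∀ (L : Type) [Lattice L], InFld L ↔ ∀ p ∈ E, SatId L p) ∧
    (¬ ∃ T : Set latL.Sentence, T.Finite ∧
      ∀ (L : Type) [Lattice L], InFld L ↔ ∀ φ ∈ T, L ⊨ φ) ∧
    (¬ ∃ E : Set (latL.Term ℕ × latL.Term ℕ), E.Finite ∧
      ∀ (L : Type) [Lattice L], InFld L ↔ ∀ p ∈ E, SatId L p) :=
  ⟨no_id, not_finite (fun L _ => InFld L) (fun _ _ h => h.inDiv) fun _ _ h => h,
    fun ⟨E, _, h⟩ => no_id ⟨E, h⟩⟩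

end Pool.Agent.Results.MP_622f37_al.NoneHold
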